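import Mathlib
import Pool.Agent.Helper39.KE.Main

/-!
# Determinants give no approximation of the number of perfect matchings

The polynomial time algorithms for counting perfect matchings (Kasteleyn; Temperley and Fisher; linear
combinations of Pfaffians for graphs of bounded genus) know the graph `G` only by few determinants
of matrices obtained from its `0`-`1` matrix by giving weights to the ones.  This is the model:

* `pm G` is the number of perfect matchings of the bipartite graph `G` with `n + n` vertices;
* `masked A G` is the entrywise product of `A` with the `0`-`1` matrix of `G`, where the entries of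
  `A` may be in any commutative ring;
* `Classes r A`: for any two rows the columns fall in `r` classes such that the `2 × 2` minors
  of the two rows and two columns of the same class vanish; this holds with `r = 2` for signs, with
  `r = k ^ 2` if every row has at most `k` distinct entries, and it is not changed by a scaling of
  the rows and columns;
* `Prog R n`: algorithms which ask for determinants `det (masked A G)`; the questions may depend
  on the earlier answers, and the output may be any real function of the answers.

The definitions are in `Pool/Agent/Helper39/KE/Defs.lean`.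

The number of perfect matchings of a graph which has one is between `1` and `n !`, so the
constant output `√(n !)` is always within a factor `√(n !)` (`constant_output`).  The theorem says
that randomised adaptive algorithms with polynomially many (even `exp (n ^ (1 - ε))`) questions can
hardly do better: they do not reach the factor `√(b !)` if `n - b` is a little larger than
`2 r log T`.

Proof.  Choose a random partition of the first `2 m` columns into ordered pairs, and give the rows
`2 t` and `2 t + 1` ones in the two columns of the `t`-th pair.  A question gets the answer zero,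
except with probability at most `4 ^ m (1 - 1 / r) ^ m / (2 m choose m)`, and this does not depend on the
last `b` rows, where the graph may be a matching or complete.
-/

set_option autoImplicit false

open Finset Pool.Agent.Helper39.KE

namespace Pool.Agent.Results.MP_381749_lc.ApproximateCounting

/-- `Classes 2 A` holds for matrices of signs. -/
theorem classes_signs {R : Type} [CommRing R] {n : ℕ} (A : Matrix (Fin n) (Fin n) R)
    (h : ∀ i j, A i j = 1 ∨ A i j = -1) : Classes 2 A := by
  classical
  intro i i'
  refine ⟨fun c => if A i c = A i' c then 0 else 1, fun c e hce => ?_⟩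
  by_cases h1 : A i c = A i' c
  · by_cases h2 : A i e = A i' e
    · rw [h1, h2]; ring
    · simp [h1, h2] at hce
  · by_cases h2 : A i e = A i' e
    · simp [h1, h2] at hce
    · have h5 : ∀ c, ¬ A i c = A i' c → A i' c = - A i c := by
        intro c h6
        rcases h i c with a | a
        · rcases h i' c with a' | a'
          · exact absurd (a.trans a'.symm) h6
          · rw [a, a']
        · rcases h i' c with a' | a'
          · rw [a, a', neg_neg]
          · exact absurd (a.trans a'.symm) h6
      rw [h5 c h1, h5 e h2]; ring

/-- The constant output `√(n !)` is within a factor `√(n !)`. -/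
theorem constant_output (n : ℕ) (G : Finset (Fin n × Fin n)) (hG : 0 < pm G) :
    (pm G : ℝ) / Real.sqrt (n.factorial : ℝ) ≤ Real.sqrt (n.factorial : ℝ) ∧
      Real.sqrt (n.factorial : ℝ) ≤ Real.sqrt (n.factorial : ℝ) * pm G := by
  have hfac : (0 : ℝ) < (n.factorial : ℝ) := by exact_mod_cast n.factorial_pos
  have hsq : 0 < Real.sqrt (n.factorial : ℝ) := Real.sqrt_pos.2 hfac
  have h1 : pm G ≤ n.factorial := by
    unfold pm
    refine (card_le_univ _).trans (le_of_eq ?_)
    rw [Fintype.card_perm, Fintype.card_fin]
  have h2 : (pm G : ℝ) ≤ n.factorial := by exact_mod_cast h1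
  have h3 : (1 : ℝ) ≤ pm G := by exact_mod_cast hG
  constructor
  · rw [div_le_iff₀ hsq, Real.mul_self_sqrt hfac.le]; exact h2
  · nlinarith

/-- Let `n = 2 m + b`, and let a randomised adaptive algorithm ask for at most `T` determinants
`det (masked A G)`, with matrices `A` such that `Classes r A`.  If for every bipartite graph `G` with
`n + n` vertices which has a perfect matching its output is, with probability at least `2 / 3`,
within a factor `F` of the number of perfect matchings of `G`, where `1 ≤ F` and `F ^ 2 < b !`, then
`exp (m / r) ≤ 6 √m T`. -/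
theorem result (R : Type) [CommRing R] (m b r T : ℕ) (hm : 1 ≤ m) (hr : 1 ≤ r)
    (W : Type) [Fintype W] (p : W → ℝ) (P : W → Prog R (2 * m + b)) (hp0 : ∀ w, 0 ≤ p w)
    (hp1 : ∑ w, p w = 1) (hP : ∀ w, (P w).Within r T)
    (F : ℝ) (hF1 : 1 ≤ F) (hF2 : F ^ 2 < (b.factorial : ℝ))
    (hG : ∀ G : Finset (Fin (2 * m + b) × Fin (2 * m + b)), 0 < pm G →
      (2 : ℝ) / 3 ≤ ∑ w ∈ univ.filter (fun w => (pm G : ℝ) / F ≤ (P w).run G ∧
        (P w).run G ≤ F * pm G), p w) :
    Real.exp (m / r) ≤ 6 * Real.sqrt m * T := by
  classical
  set d : Fin (2 * m + b) × Fin (2 * m + b) := (⟨0, by omega⟩, ⟨0, by omega⟩) with hd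
  have key : ∀ l, Valid m (C0 m b) l → (1 : ℝ) / 3 ≤
      ∑ w, p w * (if (P w).run (graph (pr d m l)) ≠ (P w).run (graph' (pr d m l))
        then (1 : ℝ) else 0) := by
    intro l hl
    have hok := ok_of_valid d l hl
    have hpos := pm_pos (pr d m l) hok
    have hratio := pm_ratio (pr d m l)
    have h1 := hG (graph (pr d m l)) hpos
    have h0 : 0 < pm (graph' (pr d m l)) :=
      lt_of_lt_of_le (Nat.mul_pos (Nat.factorial_pos _) hpos) hratio
    have h2 := hG (graph' (pr d m l)) h0
    rw [sum_filter] at h1 h2
    set q := pr d m l
    have h3 : ∀ w, (if (pm (graph q) : ℝ) / F ≤ (P w).run (graph q) ∧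
          (P w).run (graph q) ≤ F * pm (graph q) then p w else 0) +
        (if (pm (graph' q) : ℝ) / F ≤ (P w).run (graph' q) ∧
          (P w).run (graph' q) ≤ F * pm (graph' q) then p w else 0) ≤
        p w + p w * (if (P w).run (graph q) ≠ (P w).run (graph' q) then (1 : ℝ) else 0) := by
      intro w
      have hpw := hp0 w
      by_cases h4 : (pm (graph q) : ℝ) / F ≤ (P w).run (graph q) ∧
          (P w).run (graph q) ≤ F * pm (graph q)
      · by_cases h5 : (pm (graph' q) : ℝ) / F ≤ (P w).run (graph' q) ∧
          (P w).run (graph' q) ≤ F * pm (graph' q)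
        · have h6 : (P w).run (graph q) ≠ (P w).run (graph' q) := by
            intro h7
            have h8 : (pm (graph' q) : ℝ) / F ≤ F * pm (graph q) := by
              rw [h7] at h4
              exact h5.1.trans h4.2
            have h9 : (b.factorial : ℝ) * pm (graph q) ≤ pm (graph' q) := by
              exact_mod_cast hratio
            have h10 : (0 : ℝ) < pm (graph q) := by exact_mod_cast hpos
            rw [div_le_iff₀ (by linarith)] at h8
            nlinarith
          rw [if_pos h4, if_pos h5, if_pos h6, mul_one]
        · rw [if_pos h4, if_neg h5]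
          split_ifs <;> linarith
      · rw [if_neg h4]
        split_ifs <;> linarith
    have h4 := sum_le_sum fun w (_ : w ∈ (univ : Finset W)) => h3 w
    rw [sum_add_distrib, sum_add_distrib, hp1] at h4
    linarith
  have h1 := avg_mono m (C0 m b) (fun _ => (1 : ℝ) / 3) _ key
  rw [avg_const m _ _ (card_C0 m b), avg_sum] at h1
  have h2 : ∀ w, avg m (C0 m b) (fun l => p w * (if (P w).run (graph (pr d m l)) ≠
      (P w).run (graph' (pr d m l)) then (1 : ℝ) else 0)) ≤ p w * (T * beta r m) := by
    intro w
    rw [avg_mul]
    exact mul_le_mul_of_nonneg_left (differ d r hr T (P w) (hP w)) (hp0 w)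
  have h3 : (1 : ℝ) / 3 ≤ T * beta r m := by
    refine h1.trans ((sum_le_sum fun w _ => h2 w).trans (le_of_eq ?_))
    rw [← sum_mul, hp1, one_mul]
  have h4 := beta_le r m hr hm
  have h5 : (1 : ℝ) / 3 ≤ T * (2 * Real.sqrt m * Real.exp (-(m / r : ℝ))) :=
    h3.trans (mul_le_mul_of_nonneg_left h4 (Nat.cast_nonneg _))
  have h6 : Real.exp (-(m / r : ℝ)) * Real.exp (m / r : ℝ) = 1 := by
    rw [← Real.exp_add]; simp
  have h7 := Real.exp_pos (m / r : ℝ)
  have h8 : (1 : ℝ) / 3 * Real.exp (m / r : ℝ) ≤
      T * (2 * Real.sqrt m * Real.exp (-(m / r : ℝ))) * Real.exp (m / r : ℝ) :=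
    mul_le_mul_of_nonneg_right h5 h7.le
  have h9 : T * (2 * Real.sqrt m * Real.exp (-(m / r : ℝ))) * Real.exp (m / r : ℝ) =
      2 * Real.sqrt m * T * (Real.exp (-(m / r : ℝ)) * Real.exp (m / r : ℝ)) := by ring
  rw [h9, h6] at h8
  linarith

end Pool.Agent.Results.MP_381749_lc.ApproximateCounting
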