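import Pool.Agent.Helper70K1.SS.Fin

/-!
# Parity prediction and counting

All functions in `#P` are computable in polynomial time if and only if some language `K` that is
hard for `P^{#P[1]}` (the languages decided in polynomial time from the input and one value of a
function in `#P`), under polynomial-time many-one reductions, is parity predictable: a
polynomial-time algorithm gets polynomially many strings and gives a nonempty list of statements on
the parity of the number of elements of `K` in nonempty subfamilies of the strings, at least a
fraction `1/2 + 1/poly` of which is right.

Proof. Let `LS` be the language of the bits of certain words: for a formula in conjunctive normal
form and values modulo a small prime for some of its variables, let `V` be the number coding the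
round polynomial of the sum-check protocol (Lund, Fortnow, Karloff, Nisan), that is the partial sum
of the arithmetized formula as a polynomial in one free variable. A residue of the last bits of `V`
is hashed to a pair of elements of the field with `2^r` elements, and the pair is expanded to a
word of polynomial length by the small bias generator of Alon, Goldreich, Hastad and Peralta. The
number `V` is computed from one value of a function in `#P`. If `LS` is parity predictable then the
statements, compared with the words of a list of candidates for the last bits of `V`, exclude wrong
candidates as long as there are many of them, as a small bias space fools all parity statements.
So polynomially many candidates for `V` are computed, bit by bit. As in the theorem of Cai and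
Hemachandra on enumerable counting functions, the list of candidates is carried along the
sum-check protocol, by means of evaluation points at which all the candidates differ, and at the
end the right candidates are found. This gives the number of satisfying assignments modulo many
primes.
-/

set_option autoImplicit false

namespace Pool.Agent.Results.MP_381749_lc.ParityPrediction

open Pool.Agent.NPC.Cnt (SharpP FP)
open Pool.Agent.Helper70K1.PP (ParityPredictable)
open Pool.Agent.Helper70K1.SS (SharpPHardLang)

/-- **Theorem.** Every function in `#P` is computable in polynomial time if and only if some
language that is hard for the languages decided in polynomial time with one value of a function in
`#P` is parity predictable. -/
theorem result : (∃ K : Set (List Bool), SharpPHardLang K ∧ ParityPredictable K) ↔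
    ∀ f : List Bool → ℕ, SharpP f → FP f :=
  Pool.Agent.Helper70K1.SS.sharpP_iff

end Pool.Agent.Results.MP_381749_lc.ParityPrediction
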