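import Pool.Agent.Helper70K1.ST.Half

/-!
# Counting, polynomial time and weighted threshold gates

A language `L` is a `Halfspace` if a function computable in polynomial time sends each string `x`
to a vector of integers and, for each length `n`, some linear functional with arbitrary real
coefficients is positive at the vectors of the strings of length `n` in `L` and not positive at the
vectors of the other strings of length `n`. A language is in `LT1` if it is decided by one weighted
threshold gate, with arbitrary real weights, for each input length.

All functions in `#P` are computable in polynomial time if and only if all languages decided in
polynomial time with one value of a function in `#P` are halfspaces, and if and only if some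
language that is hard for these languages (under many-one reductions in polynomial time) is in
`LT1`.
-/

set_option autoImplicit false

namespace Pool.Agent.Results.MP_381749_lc.ThresholdGates

open Pool.Agent.NPC.Cnt (SharpP FP)
open Pool.Agent.Helper70K1.SS (InPSharpP SharpPHardLang)
open Pool.Agent.Helper49.HS (Halfspace LT1)

theorem result : List.TFAE [
    ∀ f : List Bool → ℕ, SharpP f → FP f,
    ∀ L : Set (List Bool), InPSharpP L → Halfspace L,
    ∃ A : Set (List Bool), SharpPHardLang A ∧ LT1 A] :=
  Pool.Agent.Helper70K1.ST.tfae_threshold

end Pool.Agent.Results.MP_381749_lc.ThresholdGates
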