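import Pool.Agent.Helper70K1.BX.Sharp
import Pool.Agent.Helper70K1.BX.Ival

/-!
# Counting and wrong unions of few intervals

All functions in `#P` are computable in polynomial time if and only if, for some constant `c`, some
language `K` that is hard for `P^{#P[1]}` (the languages decided in polynomial time from the input
and one value of a function in `#P`), under polynomial-time many-one reductions, is excludable with
`c` intervals: in polynomial time one finds, for each list of polynomially many strings, at most `c`
intervals of positions whose union is not the set of the positions of the strings that are in `K`.

If a number `k` is found that is not the number of members of `K` among `m` strings, then the set of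
the first `k` positions is wrong; so the theorem contains an analogue, for polynomially many strings,
of Kummer's cardinality theorem. Here the wrong set may be any union of at most `c` intervals.

Proof. For the family of the unions of at most `c` intervals (they have numbers less than `m ^ (4 c)`) let `LX` be the language of
the following labels: for a formula in conjunctive normal form and values modulo a small prime for
some of its variables, let `V` be the number coding the round polynomial of the sum-check protocol
(Lund, Fortnow, Karloff, Nisan). A residue of the last bits of `V` is hashed to a pair of elements of
the field with `2^r` elements, and the pair is the number of a union of intervals; the label of the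
position `i` tells whether `i` is in the union. A query has only the hash function in it, so its
length does not depend on the number of queries; this is why as many queries may be asked as there
are positions. If there are more than `16^r` candidates for the last bits of `V` then for some hash
function every pair is the value of a candidate, so a wrong union excludes a candidate. So
polynomially many candidates for `V` are computed, bit by bit. As in the theorem of Cai and
Hemachandra on enumerable counting functions, the list of candidates is carried along the sum-check
protocol, by means of evaluation points at which all the candidates differ. This gives the number of
satisfying assignments modulo many primes.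
-/

set_option autoImplicit false

namespace Pool.Agent.Results.MP_381749_lc.WrongIntervals

open Pool.Agent.NPC.Cnt (SharpP FP)
open Pool.Agent.Helper70K1.SS (SharpPHardLang InPSharpP inP_of_fp)
open Pool.Agent.Helper70K1.BX

/-- **Theorem.** Every function in `#P` is computable in polynomial time if and only if for some
constant `c` all languages in `P^{#P[1]}`, and if and only if for some constant `c` some language
hard for `P^{#P[1]}`, are excludable with `c` intervals. -/
theorem result :
    List.TFAE [
      ∀ f : List Bool → ℕ, SharpP f → FP f,
      ∃ c : ℕ, ∀ L : Set (List Bool), InPSharpP L → IntervalExcludable c L,
      ∃ (c : ℕ) (K : Set (List Bool)), SharpPHardLang K ∧ IntervalExcludable c K] := by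
  tfae_have 1 → 2 := fun h => ⟨1, fun L hL => intervalExcludable_of_inP (inP_of_fp h hL)⟩
  tfae_have 2 → 1 := fun ⟨c, h⟩ f hf =>
    fp_of_excludes (h _ (inPSharpP_LX (polyTime_gamI c))).excludes hf
  tfae_have 1 → 3 := fun h => by
    refine ⟨1, {[true]}, fun L hL => ?_, intervalExcludable_of_inP ⟨fun x => x,
      Pool.Agent.Helper70K1.SP.polyTime_of_typed Pool.Agent.NPC.Poly.id, fun x => Iff.rfl⟩⟩
    obtain ⟨V, hV, hVL⟩ := inP_of_fp h hL
    exact ⟨V, hV, fun x => hVL x⟩
  tfae_have 3 → 1 := fun ⟨c, K, hK, hK'⟩ f hf =>
    fp_of_excludes (hK'.of_reduces (hK _ (inPSharpP_LX (polyTime_gamI c)))).excludes hf
  tfae_finish

end Pool.Agent.Results.MP_381749_lc.WrongIntervals
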